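import Pool.Agent.H25.MF.Targets

/-!
# Board mf_modules, row AG: the Gaussians are an approximate identity
-/

set_option autoImplicit false

open Complex MeasureTheory Filter Topology

namespace Pool.Agent.H78.MF

open Pool.Agent.H25.MF

theorem sm_eq (g : ℝ → ℝ) {τ : ℝ} (hτ : 0 < τ) (v : ℝ) :
    sm g τ v = ∫ x : ℝ, g (v - τ * x) * ((√(2 * Real.pi))⁻¹ * Real.exp (-(x ^ 2 / 2))) := by
  have h1 : sm g τ v = ∫ w : ℝ, g (v - w) * gs τ w := by
    unfold sm
    rw [← integral_sub_left_eq_self (fun u => g u * gs τ (v - u)) volume v]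
    refine integral_congr_ae (Eventually.of_forall fun w => ?_)
    simp only
    rw [sub_sub_cancel]
  have h2 := Measure.integral_comp_mul_left (fun w : ℝ => g (v - w) * gs τ w) τ
  have h3 : sm g τ v = τ * ∫ x : ℝ, g (v - τ * x) * gs τ (τ * x) := by
    rw [h1, h2, abs_of_pos (inv_pos.2 hτ), smul_eq_mul, ← mul_assoc, mul_inv_cancel₀ hτ.ne', one_mul]
  rw [h3, ← integral_const_mul]
  refine integral_congr_ae (Eventually.of_forall fun x => ?_)
  simp only [gs]
  have e : (τ * x) ^ 2 / (2 * τ ^ 2) = x ^ 2 / 2 := by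
    field_simp
  rw [e, mul_inv]
  field_simp

theorem pf_AG : T_AG := by
  rintro g ⟨hm, B, hB⟩ v hv
  have hB0 : 0 ≤ B := by
    have := le_trans (abs_nonneg _) (hB 0)
    by_contra h
    push Not at h
    have h2 := mul_neg_of_neg_of_pos h (Real.exp_pos (5 / 8 * |(0 : ℝ)|))
    linarith
  have hc : 0 ≤ (√(2 * Real.pi))⁻¹ := by positivity
  have hcont : Continuous fun x : ℝ => (√(2 * Real.pi))⁻¹ * Real.exp (-(x ^ 2 / 2)) := by
    fun_prop
  have hlim : Tendsto (fun τ : ℝ => ∫ x : ℝ, g (v - τ * x) *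
      ((√(2 * Real.pi))⁻¹ * Real.exp (-(x ^ 2 / 2)))) (𝓝[>] 0)
      (𝓝 (∫ x : ℝ, g v * ((√(2 * Real.pi))⁻¹ * Real.exp (-(x ^ 2 / 2))))) := by
    refine tendsto_integral_filter_of_dominated_convergence
      (fun x => B * Real.exp (5 / 8 * |v|) * Real.exp (25 / 64) * (√(2 * Real.pi))⁻¹ *
        Real.exp (-(1 / 4) * x ^ 2)) ?_ ?_ ?_ ?_
    · refine Eventually.of_forall fun τ => ?_
      have h1 : Measurable fun x : ℝ => g (v - τ * x) := hm.comp (by fun_prop)
      exact (h1.mul hcont.measurable).aestronglyMeasurable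
    · have hev : ∀ᶠ τ : ℝ in 𝓝[>] 0, 0 < τ ∧ τ < 1 :=
        Ioo_mem_nhdsGT (by norm_num : (0 : ℝ) < 1)
      filter_upwards [hev] with τ hτ
      refine Eventually.of_forall fun x => ?_
      rw [Real.norm_eq_abs, abs_mul, abs_mul, abs_of_nonneg hc, Real.abs_exp]
      have h1 : |v - τ * x| ≤ |v| + |x| := by
        refine (abs_sub _ _).trans (add_le_add le_rfl ?_)
        rw [abs_mul, abs_of_pos hτ.1]
        exact mul_le_of_le_one_left (abs_nonneg x) hτ.2.le
      have h2 : |g (v - τ * x)| ≤ B * Real.exp (5 / 8 * |v| + 5 / 8 * |x|) := by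
        refine (hB _).trans (mul_le_mul_of_nonneg_left (Real.exp_le_exp.2 ?_) hB0)
        nlinarith
      have h3 : Real.exp (5 / 8 * |v| + 5 / 8 * |x|) * Real.exp (-(x ^ 2 / 2))
          ≤ Real.exp (5 / 8 * |v|) * Real.exp (25 / 64) * Real.exp (-(1 / 4) * x ^ 2) := by
        rw [← Real.exp_add, ← Real.exp_add, ← Real.exp_add]
        refine Real.exp_le_exp.2 ?_
        nlinarith [sq_nonneg (|x| / 2 - 5 / 8), sq_abs x]
      calc |g (v - τ * x)| * ((√(2 * Real.pi))⁻¹ * Real.exp (-(x ^ 2 / 2)))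
          ≤ B * Real.exp (5 / 8 * |v| + 5 / 8 * |x|) *
              ((√(2 * Real.pi))⁻¹ * Real.exp (-(x ^ 2 / 2))) :=
            mul_le_mul_of_nonneg_right h2 (mul_nonneg hc (Real.exp_pos _).le)
        _ = B * (√(2 * Real.pi))⁻¹ *
              (Real.exp (5 / 8 * |v| + 5 / 8 * |x|) * Real.exp (-(x ^ 2 / 2))) := by ring
        _ ≤ B * (√(2 * Real.pi))⁻¹ *
              (Real.exp (5 / 8 * |v|) * Real.exp (25 / 64) * Real.exp (-(1 / 4) * x ^ 2)) :=
            mul_le_mul_of_nonneg_left h3 (mul_nonneg hB0 hc)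
        _ = _ := by ring
    · exact (integrable_exp_neg_mul_sq (by norm_num : (0 : ℝ) < 1 / 4)).const_mul _
    · refine Eventually.of_forall fun x => Tendsto.mul_const _ ?_
      have h1 : Tendsto (fun τ : ℝ => v - τ * x) (𝓝[>] 0) (𝓝 v) := by
        have : Tendsto (fun τ : ℝ => v - τ * x) (𝓝 0) (𝓝 (v - 0 * x)) :=
          (continuous_const.sub (continuous_id.mul continuous_const)).tendsto 0
        rw [zero_mul, sub_zero] at this
        exact this.mono_left nhdsWithin_le_nhds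
      exact (hv.tendsto.comp h1)
  have hval : ∫ x : ℝ, g v * ((√(2 * Real.pi))⁻¹ * Real.exp (-(x ^ 2 / 2))) = g v := by
    rw [integral_const_mul, integral_const_mul]
    have h1 : ∫ x : ℝ, Real.exp (-(x ^ 2 / 2)) = √(2 * Real.pi) := by
      have h2 := integral_gaussian (1 / 2)
      have h3 : Real.pi / (1 / 2) = 2 * Real.pi := by ring
      rw [h3] at h2
      rw [← h2]
      refine integral_congr_ae (Eventually.of_forall fun x => ?_)
      simp only
      congr 1
      ring
    rw [h1, inv_mul_cancel₀ (Real.sqrt_ne_zero'.2 (by positivity)), mul_one]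
  rw [hval] at hlim
  refine hlim.congr' ?_
  filter_upwards [self_mem_nhdsWithin] with τ hτ
  exact (sm_eq g hτ v).symm

end Pool.Agent.H78.MF
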