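import Pool.Agent.H25.MF.Targets

/-!
# Board mf_modules, row HH: continuation to the left
-/

set_option autoImplicit false

open Complex MeasureTheory Filter Topology

namespace Pool.Agent.H78.MF

open Pool.Agent.H25.MF

theorem strip_preconnected (a b : ℝ) : IsPreconnected {z : ℂ | a < z.re ∧ z.re < b} := by
  have h : {z : ℂ | a < z.re ∧ z.re < b} = Complex.reCLM ⁻¹' Set.Ioo a b := by
    ext z
    simp
  rw [h]
  exact ((convex_Ioo a b).linear_preimage Complex.reCLM.toLinearMap).isPreconnected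

theorem strip_open (a b : ℝ) : IsOpen {z : ℂ | a < z.re ∧ z.re < b} :=
  (isOpen_lt continuous_const Complex.continuous_re).inter
    (isOpen_lt Complex.continuous_re continuous_const)

theorem zeta_analytic {s : ℂ} (hs : s ≠ 1) : AnalyticAt ℂ riemannZeta s := by
  have hopen : IsOpen {z : ℂ | z ≠ 1} := isOpen_ne
  refine DifferentiableOn.analyticAt (s := {z : ℂ | z ≠ 1}) ?_ (hopen.mem_nhds hs)
  intro z hz
  exact (differentiableAt_riemannZeta hz).differentiableWithinAt

theorem pf_HH (hYA : T_YA) (hPS : T_PS) : T_HH := by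
  intro G hG hGH
  obtain ⟨hY1, hY2⟩ := hYA
  have hPa := hPS.2.1
  set U : Set ℂ := {z : ℂ | -1 < z.re ∧ z.re < 0} with hU
  have hre : ∀ z : ℂ, (z + 1 / 2).re = z.re + 1 / 2 := by
    intro z
    simp
  have hne1 : ∀ z ∈ U, z + 1 / 2 ≠ (1 : ℂ) := by
    intro z hz h
    have h2 := congrArg Complex.re h
    rw [hre, one_re] at h2
    linarith [hz.2]
  have hGa : ∀ z : ℂ, z.re < 0 → AnalyticAt ℂ G z := by
    intro z hz
    have hopen : IsOpen {z : ℂ | z.re < 0} := isOpen_lt Complex.continuous_re continuous_const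
    refine DifferentiableOn.analyticAt (s := {z : ℂ | z.re < 0}) ?_ (hopen.mem_nhds hz)
    intro w hw
    exact (hG w hw).differentiableWithinAt
  have hsh : ∀ z : ℂ, AnalyticAt ℂ (fun z : ℂ => z + 1 / 2) z := fun z =>
    analyticAt_id.add analyticAt_const
  have hzU : ∀ z ∈ U, AnalyticAt ℂ (fun z => riemannZeta (z + 1 / 2)) z := fun z hz =>
    AnalyticAt.comp (g := riemannZeta) (f := fun z : ℂ => z + 1 / 2) (zeta_analytic (hne1 z hz))
      (hsh z)
  set E : ℂ → ℂ := fun z => ((z + 1 / 2) * (G z + Pf (z + 1 / 2)) - 2) * riemannZeta (z + 1 / 2) - 1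
    with hE
  have hEa : AnalyticOnNhd ℂ E U := by
    intro z hz
    have hP : AnalyticAt ℂ (fun z => Pf (z + 1 / 2)) z := by
      refine AnalyticAt.comp (g := Pf) (hPa (z + 1 / 2) ?_) (hsh z)
      rw [hre]
      linarith [hz.1]
    exact ((((hsh z).mul ((hGa z hz.2).add hP)).sub analyticAt_const).mul (hzU z hz)).sub
      analyticAt_const
  -- points where the zeta function does not vanish
  have hpt : ∀ z : ℂ, -1 < z.re → z.re < -(5 / 8) → riemannZeta (z + 1 / 2) ≠ 0 → E z = 0 := by
    intro z h1 h2 h3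
    have hs0 : z + 1 / 2 ≠ 0 := by
      intro h
      have h4 := congrArg Complex.re h
      rw [hre, zero_re] at h4
      linarith
    have hs1 : z + 1 / 2 ≠ 1 := hne1 z ⟨h1, by linarith⟩
    have h5 : G z = (iz (z + 1 / 2) + 2) / (z + 1 / 2) - Pf (z + 1 / 2) := by
      rw [hGH z h1 h2]
      exact hY1 _ hs0
    have h6 : iz (z + 1 / 2) = (riemannZeta (z + 1 / 2))⁻¹ := by
      unfold iz
      rw [if_neg hs1]
    simp only [hE]
    rw [h5, sub_add_cancel, mul_div_cancel₀ _ hs0, add_sub_cancel_right, h6, inv_mul_cancel₀ h3,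
      sub_self]
  set z0 : ℂ := ((-(3 / 4) : ℝ) : ℂ) with hz0
  have hz0U : z0 ∈ U := by
    constructor
    · rw [hz0, ofReal_re]
      norm_num
    · rw [hz0, ofReal_re]
      norm_num
  have hfreq : ∃ᶠ z in 𝓝[≠] z0, E z = 0 := by
    have hev : ∀ᶠ z in 𝓝[≠] z0, riemannZeta (z + 1 / 2) ≠ 0 := by
      rcases (hzU z0 hz0U).eventually_eq_zero_or_eventually_ne_zero with h | h
      · exfalso
        have h1 : AnalyticOnNhd ℂ (fun z => riemannZeta (z + 1 / 2)) U := hzU
        have h2 := h1.eqOn_zero_of_preconnected_of_eventuallyEq_zero (strip_preconnected (-1) 0)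
          hz0U h
        have hm : (((-(1 / 2) : ℝ) : ℂ)) ∈ U := by
          constructor
          · rw [ofReal_re]
            norm_num
          · rw [ofReal_re]
            norm_num
        have h3 := h2 hm
        simp only [Pi.zero_apply] at h3
        have h4 : ((-(1 / 2) : ℝ) : ℂ) + 1 / 2 = 0 := by
          push_cast
          ring
        rw [h4, riemannZeta_zero] at h3
        norm_num at h3
      · exact h
    have hev2 : ∀ᶠ z in 𝓝[≠] z0, -1 < z.re ∧ z.re < -(5 / 8) := by
      refine mem_nhdsWithin_of_mem_nhds ((strip_open (-1) (-(5 / 8))).mem_nhds ?_)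
      constructor
      · rw [hz0, ofReal_re]
        norm_num
      · rw [hz0, ofReal_re]
        norm_num
    refine Eventually.frequently ?_
    filter_upwards [hev, hev2] with z h1 h2
    exact hpt z h2.1 h2.2 h1
  have hE0 : Set.EqOn E 0 U :=
    hEa.eqOn_zero_of_preconnected_of_frequently_eq_zero (strip_preconnected (-1) 0) hz0U hfreq
  have hmul : ∀ z ∈ U, ((z + 1 / 2) * (G z + Pf (z + 1 / 2)) - 2) * riemannZeta (z + 1 / 2) = 1 := by
    intro z hz
    have := hE0 hz
    simp only [hE, Pi.zero_apply] at this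
    exact sub_eq_zero.1 this
  have hnz : ∀ z ∈ U, riemannZeta (z + 1 / 2) ≠ 0 := by
    intro z hz h
    have := hmul z hz
    rw [h, mul_zero] at this
    exact zero_ne_one this
  have hgen : ∀ z ∈ U, z + 1 / 2 ≠ 0 → G z = Hf z := by
    intro z hz hs0
    have h1 := hmul z hz
    have h2 : (z + 1 / 2) * (G z + Pf (z + 1 / 2)) - 2 = iz (z + 1 / 2) := by
      unfold iz
      rw [if_neg (hne1 z hz)]
      exact eq_inv_of_mul_eq_one_left h1
    have h3 : Hf z = (iz (z + 1 / 2) + 2) / (z + 1 / 2) - Pf (z + 1 / 2) := hY1 _ hs0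
    rw [h3, ← h2, sub_add_cancel, mul_div_cancel_left₀ _ hs0, add_sub_cancel_right]
  refine ⟨?_, ?_⟩
  · intro s h1 h2
    have hz : s - 1 / 2 ∈ U := by
      have e : (s - 1 / 2).re = s.re - 1 / 2 := by simp
      constructor
      · rw [e]
        linarith
      · rw [e]
        linarith
    have := hnz _ hz
    rwa [sub_add_cancel] at this
  · intro z h1 h2
    by_cases hs0 : z + 1 / 2 = 0
    · have hzU' : z ∈ U := ⟨h1, h2⟩
      have hc1 : ContinuousAt G z := (hGa z h2).continuousAt
      have hc2 : ContinuousAt Hf z := by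
        have h3 : AnalyticAt ℂ Y (z + 1 / 2) := by
          refine hY2 _ ?_ (Or.inr (hnz z hzU'))
          rw [hre]
          linarith
        exact (AnalyticAt.comp (g := Y) (f := fun z : ℂ => z + 1 / 2) h3 (hsh z)).continuousAt
      have hev : G =ᶠ[𝓝[≠] z] Hf := by
        have h4 : ∀ᶠ w in 𝓝[≠] z, w ∈ U :=
          mem_nhdsWithin_of_mem_nhds ((strip_open (-1) 0).mem_nhds hzU')
        filter_upwards [h4, self_mem_nhdsWithin] with w hw hwz
        refine hgen w hw fun h => hwz ?_
        have : w = z := by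
          have h5 : w + 1 / 2 = z + 1 / 2 := by rw [h, hs0]
          exact add_right_cancel h5
        exact this
      have := (hc1.eventuallyEq_nhds_iff_eventuallyEq_nhdsNE hc2).1 hev
      exact this.eq_of_nhds
    · exact hgen z ⟨h1, h2⟩ hs0

end Pool.Agent.H78.MF
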